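import Mathlib
import Pool.Agent.Helper358.BP7
import Pool.Agent.W690.CKproj

/-!
# The Banach-Mazur diameter of `C(K)` is infinite for every infinite compact `K`

In particular it is infinite for every Kunen compact, which is nonmetrizable and hence infinite.
If `C(K)` had diameter `D < ∞`, then every Euclidean space would be `D`-complemented in `C(K)`,
since it is `1`-complemented in a suitable renorming; but the Euclidean space of dimension `n` is at
best `(9/16) √n`-complemented in a space of continuous functions.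
-/

set_option autoImplicit false

namespace Pool.Agent.Results.MP_d900b7_an.KunenDiameter

open scoped ENNReal NNReal

universe u

/-- The Banach-Mazur distance `d(Y, Z) = inf ‖T‖ ‖T⁻¹‖`, over all linear isomorphisms `T` of `Y`
onto `Z`, as an element of `[0, ∞]`. -/
noncomputable def bmDist (Y Z : Type u) [NormedAddCommGroup Y] [NormedSpace ℝ Y]
    [NormedAddCommGroup Z] [NormedSpace ℝ Z] : ℝ≥0∞ :=
  ⨅ T : Y ≃L[ℝ] Z, ENNReal.ofReal (‖(T : Y →L[ℝ] Z)‖ * ‖(T.symm : Z →L[ℝ] Y)‖)

/-- `D(X) = sup d(Y, Z)`, over all Banach spaces `Y` and `Z` isomorphic to `X`, as an element of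
`[0, ∞]`. -/
noncomputable def bmDiam (X : Type u) [NormedAddCommGroup X] [NormedSpace ℝ X] : ℝ≥0∞ :=
  ⨆ (Y : Type u) (_ : NormedAddCommGroup Y) (_ : NormedSpace ℝ Y) (_ : CompleteSpace Y)
    (Z : Type u) (_ : NormedAddCommGroup Z) (_ : NormedSpace ℝ Z) (_ : CompleteSpace Z)
    (_ : Nonempty (X ≃L[ℝ] Y)) (_ : Nonempty (X ≃L[ℝ] Z)), bmDist Y Z

theorem diam_of_far {X : Type u} [NormedAddCommGroup X] [NormedSpace ℝ X]
    (h : Pool.Agent.Helper358.BP.Far ℝ X) : bmDiam X = ∞ := by
  apply ENNReal.eq_top_of_forall_nnreal_le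
  intro M
  obtain ⟨Y, Z, i1, i2, i3, i4, i5, i6, hY, hZ, h⟩ := h M
  have h1 : (M : ℝ≥0∞) ≤ bmDist Y Z := by
    apply le_iInf
    intro T
    rw [← ENNReal.ofReal_coe_nnreal]
    exact ENNReal.ofReal_le_ofReal (h T)
  refine h1.trans ?_
  unfold bmDiam
  exact le_iSup_of_le Y <| le_iSup_of_le i1 <| le_iSup_of_le i2 <| le_iSup_of_le i3 <|
    le_iSup_of_le Z <| le_iSup_of_le i4 <| le_iSup_of_le i5 <| le_iSup_of_le i6 <|
    le_iSup_of_le hY <| le_iSup_of_le hZ le_rfl

/-- the space of continuous functions on an infinite compact Hausdorff space is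
infinite-dimensional -/
theorem not_finiteDimensional (K : Type u) [TopologicalSpace K] [CompactSpace K] [T2Space K]
    [Infinite K] : ¬ FiniteDimensional ℝ C(K, ℝ) := by
  intro hfin
  -- distinct points give linearly independent evaluations
  have hind : ∀ (n : ℕ) (p : Fin n → K), Function.Injective p → n ≤ Module.finrank ℝ C(K, ℝ) := by
    intro n p hp
    have hsurj : Function.Surjective
        ((LinearMap.pi fun i => (ContinuousMap.evalCLM ℝ (p i) : C(K, ℝ) →L[ℝ] ℝ).toLinearMap) :
          C(K, ℝ) →ₗ[ℝ] (Fin n → ℝ)) := by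
      intro c
      have hcl : IsClosed (Set.range p) := (Set.finite_range p).isClosed
      have hc : Continuous (fun x : Set.range p => c ((Equiv.ofInjective p hp).symm x)) := by
        have : DiscreteTopology (Set.range p) := (Set.finite_range p).isDiscrete.to_subtype
        exact continuous_of_discreteTopology
      obtain ⟨g, hg⟩ := ContinuousMap.exists_restrict_eq hcl
        (⟨_, hc⟩ : C(Set.range p, ℝ))
      refine ⟨g, ?_⟩
      funext i
      have h1 := DFunLike.congr_fun hg ⟨p i, Set.mem_range_self i⟩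
      simp only [ContinuousMap.restrict_apply, ContinuousMap.coe_mk] at h1
      show g (p i) = c i
      rw [h1]
      congr 1
      exact (Equiv.ofInjective p hp).symm_apply_eq.2 rfl
    have h2 := LinearMap.finrank_le_finrank_of_surjective hsurj
    simpa using h2
  obtain ⟨s, hs⟩ := Infinite.exists_subset_card_eq K (Module.finrank ℝ C(K, ℝ) + 1)
  have h3 := hind _ (fun i => ((s.equivFin.symm (Fin.cast hs.symm i) : s) : K))
    (fun i j hij => by
      have h4 := Subtype.coe_injective hij
      have h5 := s.equivFin.symm.injective h4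
      exact Fin.cast_injective _ h5)
  omega

/-- **Theorem.** Let `K` be an infinite compact Hausdorff space, for instance a Kunen compact. Then
`D(C(K)) = ∞`. -/
theorem result (K : Type u) [TopologicalSpace K] [CompactSpace K] [T2Space K] [Infinite K] :
    bmDiam C(K, ℝ) = ∞ := by
  apply diam_of_far
  apply Pool.Agent.Helper358.BP.far_of_fin (not_finiteDimensional K)
  intro C
  obtain ⟨n, hn⟩ := exists_nat_gt (((16 / 9) * |C|) ^ 2)
  refine ⟨EuclideanSpace ℝ (ULift.{u} (Fin n)), inferInstance, inferInstance, inferInstance,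
    fun a b hab => ?_⟩
  have h1 := Pool.Agent.W690.CK.sqrt_le a b hab
  rw [Fintype.card_ulift, Fintype.card_fin] at h1
  have h2 : (16 / 9) * |C| < Real.sqrt n := Real.lt_sqrt_of_sq_lt hn
  have h3 : C ≤ |C| := le_abs_self C
  linarith

end Pool.Agent.Results.MP_d900b7_an.KunenDiameter
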